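import Pool.Agent.W770.KP.Stm

/-!
Project KP (owner helper770), part LEV: level decomposition.
-/

set_option autoImplicit false

open scoped Classical

namespace Pool.Agent.W721.KP

open Finset
open Pool.Agent.W770.KP

theorem lev : S_LEV := by
  intro n k X _ f hf
  have hB : ∀ l : ℤ, (4:ℝ) ^ (l * ((k:ℤ) + 1)) = (((4 ^ (k + 1) : ℕ)) : ℝ) ^ l := by
    intro l
    rw [mul_comm, zpow_mul]
    congr 1
    push_cast
    norm_cast
  have hB1 : 1 < 4 ^ (k + 1) := Nat.one_lt_pow (by omega) (by omega)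
  obtain ⟨lv, hlv⟩ : ∃ lv : X → ℤ, ∀ x, lv x = Int.log (4 ^ (k + 1)) (f x) := ⟨_, fun _ => rfl⟩
  obtain ⟨S, hS⟩ : ∃ S : ℤ → Finset X, ∀ l x, x ∈ S l ↔
      ((4:ℝ) ^ (l * ((k:ℤ) + 1)) ≤ f x ∧ f x < (4:ℝ) ^ ((l+1) * ((k:ℤ) + 1))) :=
    ⟨fun l => univ.filter (fun x => (4:ℝ) ^ (l * ((k:ℤ) + 1)) ≤ f x ∧
      f x < (4:ℝ) ^ ((l+1) * ((k:ℤ) + 1))), fun l x => by simp⟩
  have hmem : ∀ x, 0 < f x → x ∈ S (lv x) := by
    intro x hx
    rw [hS, hB, hB, hlv]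
    exact ⟨Int.zpow_log_le_self hB1 hx, Int.lt_zpow_succ_log_self hB1 (f x)⟩
  have hk : (0:ℤ) < (k:ℤ) + 1 := by positivity
  have hlt : ∀ l l' : ℤ, l < l' → Disjoint (S l) (S l') := by
    intro l l' h
    rw [Finset.disjoint_left]
    intro x h1 h2
    have h3 := ((hS l x).1 h1).2
    have h4 := ((hS l' x).1 h2).1
    have h5 : (4:ℝ) ^ ((l+1) * ((k:ℤ) + 1)) ≤ (4:ℝ) ^ (l' * ((k:ℤ) + 1)) := by
      refine zpow_le_zpow_right₀ (by norm_num) ?_
      exact mul_le_mul_of_nonneg_right (by omega) hk.le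
    linarith
  have hdis : ∀ l l' : ℤ, l ≠ l' → Disjoint (S l) (S l') := by
    intro l l' h
    rcases lt_or_gt_of_ne h with h | h
    · exact hlt l l' h
    · exact (hlt l' l h).symm
  refine ⟨(univ.filter (fun x => 0 < f x)).image lv, S, ?_, fun l x hx => (hS l x).1 hx, ?_,
    hdis, ?_⟩
  · intro l hl
    obtain ⟨x, hx, rfl⟩ := Finset.mem_image.1 hl
    exact ⟨x, hmem x (Finset.mem_filter.1 hx).2⟩
  · intro x hx
    exact ⟨lv x, Finset.mem_image.2 ⟨x, Finset.mem_filter.2 ⟨Finset.mem_univ _, hx⟩, rfl⟩,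
      hmem x hx⟩
  · have key : ∀ l x, x ∈ S l → (4:ℝ) ^ (l * ((n:ℤ) + 1)) ≤
        (f x) ^ (((n:ℝ) + 1) / ((k:ℝ) + 1)) := by
      intro l x hx
      have h1 := ((hS l x).1 hx).1
      have h2 : (4:ℝ) ^ (l * ((n:ℤ) + 1)) =
          ((4:ℝ) ^ (l * ((k:ℤ) + 1))) ^ (((n:ℝ) + 1) / ((k:ℝ) + 1)) := by
        rw [← Real.rpow_intCast, ← Real.rpow_intCast, ← Real.rpow_mul (by norm_num)]
        congr 1
        push_cast
        have hk' : (k:ℝ) + 1 ≠ 0 := by positivity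
        field_simp
      rw [h2]
      exact Real.rpow_le_rpow (by positivity) h1 (by positivity)
    calc ∑ l ∈ (univ.filter (fun x => 0 < f x)).image lv,
          (4:ℝ) ^ (l * ((n:ℤ) + 1)) * ((S l).card : ℝ)
        = ∑ l ∈ (univ.filter (fun x => 0 < f x)).image lv, ∑ x ∈ S l,
          (4:ℝ) ^ (l * ((n:ℤ) + 1)) := by
          refine Finset.sum_congr rfl fun l _ => ?_
          rw [Finset.sum_const, nsmul_eq_mul, mul_comm]
      _ ≤ ∑ l ∈ (univ.filter (fun x => 0 < f x)).image lv, ∑ x ∈ S l,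
          (f x) ^ (((n:ℝ) + 1) / ((k:ℝ) + 1)) :=
          Finset.sum_le_sum fun l _ => Finset.sum_le_sum fun x hx => key l x hx
      _ = ∑ x ∈ ((univ.filter (fun x => 0 < f x)).image lv).biUnion S,
          (f x) ^ (((n:ℝ) + 1) / ((k:ℝ) + 1)) := by
          rw [Finset.sum_biUnion]
          intro l _ l' _ h
          exact hdis l l' h
      _ ≤ ∑ x : X, (f x) ^ (((n:ℝ) + 1) / ((k:ℝ) + 1)) := by
          refine Finset.sum_le_sum_of_subset_of_nonneg (Finset.subset_univ _) fun x _ _ => ?_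
          exact Real.rpow_nonneg (hf x) _

end Pool.Agent.W721.KP
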